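import Pool.Agent.H522R3.HN.Inst

set_option autoImplicit false
set_option linter.unusedSectionVars false

/-!
Symmetrisation of networks which decide the solvability of systems of polynomial equations.
-/

namespace H522R3.HN

open Finset MvPolynomial Pool.Agent.H30R2 Pool.Agent.H30R2.PS

variable {K : Type} [Field K] {n M : ℕ} {Gt : Type} [Fintype Gt]

open Classical in
/-- the symmetrised network -/
noncomputable def symNet (N : Net (Fin M × (Fin n →₀ ℕ)) K Gt) (D : Subgroup (Equiv.Perm (Fin n))) :
    Net (Fin M × (Fin n →₀ ℕ)) K (Option (D × Gt)) where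
  inp
    | none => none
    | some x => (N.inp x.2).map (ren M x.1.1)
  w
    | none, _ => 0
    | some x, none => if x.2 = N.out then 1 else 0
    | some x, some y => if x.1 = y.1 then N.w x.2 y.2 else 0
  F
    | none => Multiset.prod
    | some x => N.F x.2
  out := none
  rank
    | none => N.rank N.out + 1
    | some x => N.rank x.2
  acyc := by
    intro h g hw
    rcases h with _ | h
    · exact absurd hw (lt_irrefl _)
    · rcases g with _ | g
      · have hw' : 0 < (if h.2 = N.out then 1 else 0) := hw
        split_ifs at hw' with h1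
        · show N.rank h.2 < N.rank N.out + 1
          rw [h1]; exact Nat.lt_succ_self _
        · exact absurd hw' (lt_irrefl _)
      · have hw' : 0 < (if h.1 = g.1 then N.w h.2 g.2 else 0) := hw
        split_ifs at hw' with h1
        · exact N.acyc _ _ hw'
        · exact absurd hw' (lt_irrefl _)

lemma symNet_val (N : Net (Fin M × (Fin n →₀ ℕ)) K Gt) (D : Subgroup (Equiv.Perm (Fin n)))
    [Fintype D] (x : Fin M × (Fin n →₀ ℕ) → K) (d : D) :
    ∀ (k : ℕ) (g : Gt), N.rank g = k →
      (symNet N D).val x (some (d, g)) = N.val (x ∘ ren M d.1) g := by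
  classical
  intro k
  induction k using Nat.strong_induction_on with
  | _ k ih =>
    intro g hg
    cases hi : N.inp g with
    | some i =>
      have h1 : (symNet N D).inp (some (d, g)) = some (ren M d.1 i) := by
        show (N.inp g).map (ren M d.1) = _
        rw [hi]; rfl
      rw [Net.val_some _ _ h1, Net.val_some _ _ hi]
      rfl
    | none =>
      have h1 : (symNet N D).inp (some (d, g)) = none := by
        show (N.inp g).map (ren M d.1) = _
        rw [hi]; rfl
      rw [Net.val_none _ _ h1, Net.val_none _ _ hi]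
      show N.F g _ = N.F g _
      congr 1
      rw [Fintype.sum_option]
      have h2 : (symNet N D).w none (some (d, g)) = 0 := rfl
      rw [h2, zero_smul, zero_add, Fintype.sum_prod_type, Finset.sum_eq_single d]
      · refine Finset.sum_congr rfl fun h _ => ?_
        have h3 : (symNet N D).w (some (d, h)) (some (d, g)) = N.w h g := if_pos rfl
        rw [h3]
        by_cases hw : 0 < N.w h g
        · rw [ih (N.rank h) (by rw [← hg]; exact N.acyc _ _ hw) h rfl]
        · have : N.w h g = 0 := by omega
          rw [this, zero_smul, zero_smul]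
      · intro d' _ hd'
        refine Finset.sum_eq_zero fun h _ => ?_
        have h3 : (symNet N D).w (some (d', h)) (some (d, g)) = 0 := if_neg hd'
        rw [h3, zero_smul]
      · intro h
        exact absurd (Finset.mem_univ _) h

lemma symNet_eval (N : Net (Fin M × (Fin n →₀ ℕ)) K Gt) (D : Subgroup (Equiv.Perm (Fin n)))
    [Fintype D] (x : Fin M × (Fin n →₀ ℕ) → K) :
    (symNet N D).eval x = ∏ d : D, N.eval (x ∘ ren M d.1) := by
  classical
  have h1 : (symNet N D).inp none = none := rfl
  show (symNet N D).val x none = _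
  rw [Net.val_none _ _ h1]
  show Multiset.prod _ = _
  rw [Fintype.sum_option]
  have h2 : (symNet N D).w none none = 0 := rfl
  rw [h2, zero_smul, zero_add, Fintype.sum_prod_type]
  have h3 : ∀ d : D, ∑ h : Gt, (symNet N D).w (some (d, h)) none • ({(symNet N D).val x (some (d, h))} :
      Multiset K) = {N.eval (x ∘ ren M d.1)} := by
    intro d
    rw [Finset.sum_eq_single N.out]
    · have h4 : (symNet N D).w (some (d, N.out)) none = 1 := if_pos rfl
      rw [h4, one_smul, symNet_val N D x d _ _ rfl]
      rfl
    · intro h _ hh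
      have h4 : (symNet N D).w (some (d, h)) none = 0 := if_neg hh
      rw [h4, zero_smul]
    · intro h
      exact absurd (Finset.mem_univ _) h
  rw [Finset.sum_congr rfl (fun d _ => h3 d)]
  have h5 : ∀ s : Finset D, (∑ d ∈ s, ({N.eval (x ∘ ren M d.1)} : Multiset K)).prod =
      ∏ d ∈ s, N.eval (x ∘ ren M d.1) := by
    intro s
    induction s using Finset.induction_on with
    | empty => simp
    | insert a s ha ih =>
      rw [Finset.sum_insert ha, Finset.prod_insert ha, Multiset.prod_add, ih, Multiset.prod_singleton]
  exact h5 _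

lemma symNet_sym (N : Net (Fin M × (Fin n →₀ ℕ)) K Gt) (D : Subgroup (Equiv.Perm (Fin n)))
    (d0 : D) : SymUnder (symNet N D) d0.1 := by
  classical
  refine ⟨Equiv.optionCongr ((Equiv.mulLeft d0).prodCongr (Equiv.refl Gt)), ?_, ?_, ?_, rfl⟩
  · intro g
    rcases g with _ | ⟨d, g⟩
    · rfl
    · show (N.inp g).map (ren M (d0 * d).1) = ((N.inp g).map (ren M d.1)).map (ren M d0.1)
      rw [Option.map_map]
      congr 1
      show ⇑(ren M (d0.1 * d.1)) = _
      rw [ren_mul]
      rfl
  · intro h g
    rcases h with _ | ⟨d, h⟩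
    · rcases g with _ | ⟨d', g⟩ <;> rfl
    · rcases g with _ | ⟨d', g⟩
      · rfl
      · show (if d0 * d = d0 * d' then N.w h g else 0) = if d = d' then N.w h g else 0
        by_cases hd : d = d'
        · rw [if_pos hd, if_pos (by rw [hd])]
        · rw [if_neg hd, if_neg (fun h' => hd (mul_left_cancel h'))]
  · intro g
    rcases g with _ | ⟨d, g⟩ <;> rfl

lemma coeffs_ren (f : Fin M → MvPolynomial (Fin n) K) (π : Equiv.Perm (Fin n)) :
    coeffs f ∘ ren M π = coeffs (fun i => rename π.symm (f i)) := by
  funext i
  show (f i.1).coeff (i.2.mapDomain π) = (rename π.symm (f i.1)).coeff i.2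
  have h1 : f i.1 = rename π (rename π.symm (f i.1)) := by
    rw [rename_rename]
    have : (π : Fin n → Fin n) ∘ π.symm = id := by
      funext x
      exact π.apply_symm_apply x
    rw [this, rename_id_apply]
  conv_lhs => rw [h1]
  rw [coeff_rename_mapDomain _ π.injective]

lemma solvable_ren (f : Fin M → MvPolynomial (Fin n) K) (π : Equiv.Perm (Fin n)) :
    (∃ z : Fin n → K, ∀ i, eval z (rename π.symm (f i)) = 0) ↔
      ∃ z : Fin n → K, ∀ i, eval z (f i) = 0 := by
  constructor
  · rintro ⟨z, hz⟩
    refine ⟨z ∘ π.symm, fun i => ?_⟩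
    rw [← eval_rename]
    exact hz i
  · rintro ⟨z, hz⟩
    refine ⟨z ∘ π, fun i => ?_⟩
    rw [eval_rename]
    have : (z ∘ π) ∘ π.symm = z := by
      funext x
      show z (π (π.symm x)) = z x
      rw [π.apply_symm_apply]
    rw [this]
    exact hz i

lemma symNet_decides (d : ℕ) (N : Net (Fin M × (Fin n →₀ ℕ)) K Gt)
    (D : Subgroup (Equiv.Perm (Fin n))) [Fintype D] (hN : Decides d N) : Decides d (symNet N D) := by
  intro f hf
  have hdeg : ∀ π : Equiv.Perm (Fin n), ∀ i, (rename π.symm (f i)).totalDegree ≤ d := by
    intro π i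
    exact (totalDegree_rename_le _ _).trans (hf i)
  constructor
  · intro hs
    rw [symNet_eval]
    refine Finset.prod_eq_one fun π _ => ?_
    rw [coeffs_ren]
    exact (hN _ (hdeg π.1)).1 ((solvable_ren f π.1).mpr hs)
  · intro hs
    rw [symNet_eval]
    refine Finset.prod_eq_zero (Finset.mem_univ (1 : D)) ?_
    rw [coeffs_ren]
    exact (hN _ (hdeg _)).2 (fun h => hs ((solvable_ren f _).mp h))

end H522R3.HN
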