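import Pool.Agent.H30R2.PS.Net

set_option autoImplicit false

/-!
Systems of polynomial equations and networks which read their coefficients.
-/

namespace H522R3.HN

open Finset Pool.Agent.H30R2.PS

/-- the list of all coefficients of a system of `M` polynomials in `n` variables: the coefficient of the
monomial with exponent vector `m` in the equation number `i` -/
noncomputable def coeffs {K : Type} [Field K] {n M : ℕ} (f : Fin M → MvPolynomial (Fin n) K) :
    Fin M × (Fin n →₀ ℕ) → K :=
  fun i => (f i.1).coeff i.2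

/-- the permutation of the coefficients induced by a renaming of the variables -/
noncomputable def ren {n : ℕ} (M : ℕ) (π : Equiv.Perm (Fin n)) : Equiv.Perm (Fin M × (Fin n →₀ ℕ)) where
  toFun i := (i.1, i.2.mapDomain π)
  invFun i := (i.1, i.2.mapDomain π.symm)
  left_inv i := by
    refine Prod.ext rfl ?_
    show (i.2.mapDomain π).mapDomain π.symm = i.2
    rw [← Finsupp.mapDomain_comp]
    have : (π.symm : Fin n → Fin n) ∘ π = id := by
      funext x
      exact π.symm_apply_apply x
    rw [this, Finsupp.mapDomain_id]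
  right_inv i := by
    refine Prod.ext rfl ?_
    show (i.2.mapDomain π.symm).mapDomain π = i.2
    rw [← Finsupp.mapDomain_comp]
    have : (π : Fin n → Fin n) ∘ π.symm = id := by
      funext x
      exact π.apply_symm_apply x
    rw [this, Finsupp.mapDomain_id]

/-- The network decides for all systems of `M` equations of degree at most `d` in `n` variables whether they
have a solution: the output is `1` if there is one and `0` otherwise. -/
def Decides {K Gt : Type} [Field K] [Fintype Gt] {n M : ℕ} (d : ℕ)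
    (N : Net (Fin M × (Fin n →₀ ℕ)) K Gt) : Prop :=
  ∀ f : Fin M → MvPolynomial (Fin n) K, (∀ i, (f i).totalDegree ≤ d) →
    ((∃ z : Fin n → K, ∀ i, MvPolynomial.eval z (f i) = 0) → N.eval (coeffs f) = 1) ∧
    ((¬ ∃ z : Fin n → K, ∀ i, MvPolynomial.eval z (f i) = 0) → N.eval (coeffs f) = 0)

/-- The network is symmetric under the renaming `π` of the variables: `π` extends to an automorphism. -/
def SymUnder {K Gt : Type} {n M : ℕ} (N : Net (Fin M × (Fin n →₀ ℕ)) K Gt)
    (π : Equiv.Perm (Fin n)) : Prop :=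
  ∃ φ, N.IsAut (ren M π) φ

/-- the permutation of the pairs `(x, 0), (x, 1)` which exchanges `(x, 0)` and `(x, 1)` if `a x = 1` -/
def swaps {p : ℕ} (a : Fin p → ZMod 2) : Equiv.Perm (Fin p × ZMod 2) where
  toFun x := (x.1, x.2 + a x.1)
  invFun x := (x.1, x.2 - a x.1)
  left_inv x := Prod.ext rfl (add_sub_cancel_right _ _)
  right_inv x := Prod.ext rfl (sub_add_cancel _ _)

/-- the permutation of the variables which, for all `x` with `a x = 1`, exchanges the two variables `ρ (x, 0)`
and `ρ (x, 1)`, and fixes all other variables -/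
noncomputable def swapVars {p n : ℕ} (ρ : Fin p × ZMod 2 ↪ Fin n) (a : Fin p → ZMod 2) :
    Equiv.Perm (Fin n) :=
  (swaps a).viaEmbedding ρ

lemma ren_mul {n : ℕ} (M : ℕ) (π π' : Equiv.Perm (Fin n)) : ren M (π * π') = ren M π * ren M π' := by
  refine Equiv.ext fun i => ?_
  refine Prod.ext rfl ?_
  show i.2.mapDomain (π * π') = (i.2.mapDomain π').mapDomain π
  rw [← Finsupp.mapDomain_comp]
  rfl

lemma ren_one {n : ℕ} (M : ℕ) : ren M (1 : Equiv.Perm (Fin n)) = 1 := by
  refine Equiv.ext fun i => ?_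
  refine Prod.ext rfl ?_
  show i.2.mapDomain (1 : Equiv.Perm (Fin n)) = i.2
  exact Finsupp.mapDomain_id

lemma swaps_add {p : ℕ} (a b : Fin p → ZMod 2) : swaps (a + b) = swaps a * swaps b := by
  refine Equiv.ext fun x => ?_
  refine Prod.ext rfl ?_
  show x.2 + (a x.1 + b x.1) = x.2 + b x.1 + a x.1
  ring

lemma swaps_zero {p : ℕ} : swaps (0 : Fin p → ZMod 2) = 1 := by
  refine Equiv.ext fun x => ?_
  refine Prod.ext rfl ?_
  show x.2 + 0 = x.2
  exact add_zero _

lemma swapVars_apply {p n : ℕ} (ρ : Fin p × ZMod 2 ↪ Fin n) (a : Fin p → ZMod 2) (x : Fin p)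
    (k : ZMod 2) : swapVars ρ a (ρ (x, k)) = ρ (x, k + a x) := by
  unfold swapVars
  rw [Equiv.Perm.viaEmbedding_apply]
  rfl

lemma swapVars_out {p n : ℕ} (ρ : Fin p × ZMod 2 ↪ Fin n) (a : Fin p → ZMod 2) (v : Fin n)
    (hv : v ∉ Set.range ρ) : swapVars ρ a v = v := by
  unfold swapVars
  rw [Equiv.Perm.viaEmbedding_apply_of_notMem _ _ _ hv]

lemma swapVars_add {p n : ℕ} (ρ : Fin p × ZMod 2 ↪ Fin n) (a b : Fin p → ZMod 2) :
    swapVars ρ (a + b) = swapVars ρ a * swapVars ρ b := by
  refine Equiv.ext fun v => ?_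
  rw [Equiv.Perm.mul_apply]
  by_cases hv : v ∈ Set.range ρ
  · obtain ⟨⟨x, k⟩, rfl⟩ := hv
    rw [swapVars_apply, swapVars_apply, swapVars_apply, Pi.add_apply]
    congr 2
    ring
  · rw [swapVars_out _ _ _ hv, swapVars_out _ _ _ hv, swapVars_out _ _ _ hv]

lemma swapVars_zero {p n : ℕ} (ρ : Fin p × ZMod 2 ↪ Fin n) : swapVars ρ 0 = 1 := by
  refine Equiv.ext fun v => ?_
  by_cases hv : v ∈ Set.range ρ
  · obtain ⟨⟨x, k⟩, rfl⟩ := hv
    rw [swapVars_apply, Pi.zero_apply, add_zero]
    rfl
  · rw [swapVars_out _ _ _ hv]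
    rfl

end H522R3.HN
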