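import Pool.Agent.H522R3.HN.Conv

set_option autoImplicit false
set_option linter.unusedSectionVars false

/-!
Systems of linear equations over `ZMod 2` as one equation of degree four over an ordered field.
-/

namespace H522R3.HN

open Finset MvPolynomial Pool.Agent.H30R2

variable {K : Type} [Field K] [LinearOrder K] [IsStrictOrderedRing K] {n M r p : ℕ}

/-- `1` for `0` and `-1` for `1` -/
def sgK (K : Type) [Field K] (t : ZMod 2) : K := if t = 0 then 1 else -1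

lemma sgK_add (a b : ZMod 2) : sgK K (a + b) = sgK K a * sgK K b := by
  have hz : ∀ c : ZMod 2, c = 0 ∨ c = 1 := by decide
  have h11 : (1 : ZMod 2) + 1 = 0 := by decide
  have h10 : (1 : ZMod 2) ≠ 0 := by decide
  unfold sgK
  rcases hz a with rfl | rfl <;> rcases hz b with rfl | rfl <;> simp [h11, h10]

lemma sgK_sq (a : ZMod 2) : sgK K a * sgK K a = 1 := by
  rw [← sgK_add]
  have hz : ∀ c : ZMod 2, c + c = 0 := by decide
  rw [hz]
  exact if_pos rfl

lemma sgK_sum (a : Fin 3 → ZMod 2) : sgK K (∑ l, a l) = ∏ l, sgK K (a l) := by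
  rw [Fin.sum_univ_three, Fin.prod_univ_three, sgK_add, sgK_add]

lemma sgK_eq_one {a : ZMod 2} (h : sgK K a = 1) : a = 0 := by
  by_contra h0
  unfold sgK at h
  rw [if_neg h0] at h
  linarith

lemma sgK_inj {a b : ZMod 2} (h : sgK K a = sgK K b) : a = b := by
  have h1 : sgK K (a + b) = 1 := by rw [sgK_add, h, sgK_sq]
  have h2 := sgK_eq_one h1
  have : ∀ a b : ZMod 2, a + b = 0 → a = b := by decide
  exact this a b h2

/-- the difference of the two variables of a pair -/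
noncomputable def zz (K : Type) [Field K] (ρ : Fin p × ZMod 2 ↪ Fin n) (x : Fin p) :
    MvPolynomial (Fin n) K := X (ρ (x, 0)) - X (ρ (x, 1))

lemma rename_zz (ρ : Fin p × ZMod 2 ↪ Fin n) (a : Fin p → ZMod 2) (x : Fin p) :
    rename (swapVars ρ a) (zz K ρ x) = C (sgK K (a x)) * zz K ρ x := by
  have hz : ∀ c : ZMod 2, c = 0 ∨ c = 1 := by decide
  have h11 : (1 : ZMod 2) + 1 = 0 := by decide
  unfold zz
  rw [map_sub, rename_X, rename_X, swapVars_apply, swapVars_apply]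
  rcases hz (a x) with h | h
  · rw [h, add_zero, add_zero, sgK, if_pos rfl, map_one, one_mul]
  · rw [h, zero_add, h11, sgK, if_neg (by decide), map_neg, map_one]
    ring

/-- the product of the three differences in the row `j` -/
noncomputable def pr (K : Type) [Field K] (ρ : Fin p × ZMod 2 ↪ Fin n) (ι : Fin r → Fin p)
    (T : Fin (r + 1) × Fin 3 → Fin r) (j : Fin (r + 1)) : MvPolynomial (Fin n) K :=
  ∏ l, zz K ρ (ι (T (j, l)))

/-- the part of the polynomial which does not depend on the right-hand sides -/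
noncomputable def base (K : Type) [Field K] (ρ : Fin p × ZMod 2 ↪ Fin n) (ι : Fin r → Fin p)
    (T : Fin (r + 1) × Fin 3 → Fin r) : MvPolynomial (Fin n) K :=
  ∑ v : Fin r, (X (ρ (ι v, 0)) + X (ρ (ι v, 1)) - 1) ^ 2 +
    ∑ j : Fin (r + 1), (∑ l : Fin 3, (C 2 * (zz K ρ (ι (T (j, l))) ^ 2 - 1) ^ 2 +
      zz K ρ (ι (T (j, l))) ^ 2) - 1)

/-- the polynomial -/
noncomputable def quart (K : Type) [Field K] (ρ : Fin p × ZMod 2 ↪ Fin n) (ι : Fin r → Fin p)
    (T : Fin (r + 1) × Fin 3 → Fin r) (t : Fin (r + 1) → ZMod 2) : MvPolynomial (Fin n) K :=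
  base K ρ ι T - ∑ j : Fin (r + 1), C (2 * sgK K (t j)) * pr K ρ ι T j

lemma rename_pr (ρ : Fin p × ZMod 2 ↪ Fin n) (ι : Fin r → Fin p) (E : NS.Ext ι)
    (T : Fin (r + 1) × Fin 3 → Fin r) (h : Fin r → ZMod 2) (j : Fin (r + 1)) :
    rename (swapVars ρ (E.ext h)) (pr K ρ ι T j) = C (sgK K (NS.A T h j)) * pr K ρ ι T j := by
  unfold pr
  rw [map_prod, NS.A_apply, sgK_sum, map_prod, ← Finset.prod_mul_distrib]
  refine Finset.prod_congr rfl fun l _ => ?_
  rw [rename_zz, E.apply]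

lemma rename_base (ρ : Fin p × ZMod 2 ↪ Fin n) (ι : Fin r → Fin p)
    (T : Fin (r + 1) × Fin 3 → Fin r) (a : Fin p → ZMod 2) :
    rename (swapVars ρ a) (base K ρ ι T) = base K ρ ι T := by
  have hsq : ∀ x, rename (swapVars ρ a) (zz K ρ x) ^ 2 = zz K ρ x ^ 2 := by
    intro x
    rw [rename_zz, mul_pow, ← map_pow, pow_two (sgK K (a x)), sgK_sq, map_one, one_mul]
  unfold base
  rw [map_add, map_sum, map_sum]
  congr 1
  · refine Finset.sum_congr rfl fun v _ => ?_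
    rw [map_pow, map_sub, map_add, rename_X, rename_X, map_one, swapVars_apply, swapVars_apply]
    have hz : ∀ c : ZMod 2, c = 0 ∨ c = 1 := by decide
    have h11 : (1 : ZMod 2) + 1 = 0 := by decide
    rcases hz (a (ι v)) with h | h
    · rw [h, add_zero, add_zero]
    · rw [h, zero_add, h11, add_comm (X (ρ (ι v, 1)))]
  · refine Finset.sum_congr rfl fun j _ => ?_
    rw [map_sub, map_sum, map_one]
    congr 1
    refine Finset.sum_congr rfl fun l _ => ?_
    rw [map_add, map_mul, rename_C, map_pow, map_sub, map_pow, map_one, hsq]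

lemma rename_quart (ρ : Fin p × ZMod 2 ↪ Fin n) (ι : Fin r → Fin p) (E : NS.Ext ι)
    (T : Fin (r + 1) × Fin 3 → Fin r) (t : Fin (r + 1) → ZMod 2) (h : Fin r → ZMod 2) :
    rename (swapVars ρ (E.ext h)) (quart K ρ ι T t) = quart K ρ ι T (t + NS.A T h) := by
  unfold quart
  rw [map_sub, rename_base, map_sum]
  congr 1
  refine Finset.sum_congr rfl fun j _ => ?_
  rw [map_mul, rename_C, rename_pr, Pi.add_apply, sgK_add, ← mul_assoc, ← map_mul, ← mul_assoc]

/-- the system: one equation, the others are `0 = 0` -/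
noncomputable def sys4 (K : Type) [Field K] (ρ : Fin p × ZMod 2 ↪ Fin n) (ι : Fin r → Fin p)
    (i0 : Fin M) (T : Fin (r + 1) × Fin 3 → Fin r) (t : Fin (r + 1) → ZMod 2) (i : Fin M) :
    MvPolynomial (Fin n) K := if i = i0 then quart K ρ ι T t else 0

lemma rename_sys4 (ρ : Fin p × ZMod 2 ↪ Fin n) (ι : Fin r → Fin p) (E : NS.Ext ι)
    (i0 : Fin M) (T : Fin (r + 1) × Fin 3 → Fin r) (t : Fin (r + 1) → ZMod 2)
    (h : Fin r → ZMod 2) (i : Fin M) :
    rename (swapVars ρ (E.ext h)) (sys4 K ρ ι i0 T t i) = sys4 K ρ ι i0 T (t + NS.A T h) i := by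
  unfold sys4
  split_ifs
  · exact rename_quart ρ ι E T t h
  · exact map_zero _

/-- the family of inputs -/
noncomputable def fam4 (ρ : Fin p × ZMod 2 ↪ Fin n) (ι : Fin r → Fin p) (E : NS.Ext ι)
    (i0 : Fin M) (T : Fin (r + 1) × Fin 3 → Fin r) :
    PS.Setup (Fin M × (Fin n →₀ ℕ)) K (Fin (r + 1)) (Fin r → ZMod 2) where
  B := NS.A T
  perm h := ren M (swapVars ρ (E.ext h))
  perm_zero := by rw [E.zero, swapVars_zero, ren_one]
  perm_add h h' := by rw [E.add, swapVars_add, ren_mul]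
  x t := coeffs (sys4 K ρ ι i0 T t)
  equi t h i := by
    show (sys4 K ρ ι i0 T (t + NS.A T h) i.1).coeff (i.2.mapDomain (swapVars ρ (E.ext h))) =
      (sys4 K ρ ι i0 T t i.1).coeff i.2
    rw [← rename_sys4, coeff_rename_mapDomain _ (Equiv.injective _)]
  loc i := {j | (pr K ρ ι T j).coeff i.2 ≠ 0}
  loc_x i t e' h := by
    show (sys4 K ρ ι i0 T (t + e') i.1).coeff i.2 = (sys4 K ρ ι i0 T t i.1).coeff i.2
    unfold sys4
    split_ifs
    · unfold quart
      rw [coeff_sub, coeff_sub, coeff_sum, coeff_sum]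
      congr 1
      refine Finset.sum_congr rfl fun j _ => ?_
      rw [coeff_C_mul, coeff_C_mul]
      by_cases hj : (pr K ρ ι T j).coeff i.2 = 0
      · rw [hj, mul_zero, mul_zero]
      · rw [Pi.add_apply, h j hj, add_zero]
    · rfl
  loc_perm i h hfix j hj := by
    have hm : i.2.mapDomain (swapVars ρ (E.ext h)) = i.2 := congrArg Prod.snd hfix
    have h1 : (rename (swapVars ρ (E.ext h)) (pr K ρ ι T j)).coeff
        (i.2.mapDomain (swapVars ρ (E.ext h))) = (pr K ρ ι T j).coeff i.2 :=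
      coeff_rename_mapDomain _ (Equiv.injective _) _ _
    rw [rename_pr, hm, coeff_C_mul] at h1
    exact sgK_eq_one (K := K) (mul_right_cancel₀ hj (by rw [h1, one_mul]))

lemma degree_zz (ρ : Fin p × ZMod 2 ↪ Fin n) (x : Fin p) : (zz K ρ x).totalDegree ≤ 1 := by
  unfold zz
  refine (totalDegree_sub _ _).trans (max_le ?_ ?_) <;> rw [totalDegree_X]

lemma degree_quart (ρ : Fin p × ZMod 2 ↪ Fin n) (ι : Fin r → Fin p)
    (T : Fin (r + 1) × Fin 3 → Fin r) (t : Fin (r + 1) → ZMod 2) :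
    (quart K ρ ι T t).totalDegree ≤ 4 := by
  unfold quart base
  refine (totalDegree_sub _ _).trans (max_le ((totalDegree_add _ _).trans (max_le ?_ ?_)) ?_)
  · refine totalDegree_finsetSum_le (fun v _ => ?_)
    refine (totalDegree_pow _ _).trans ?_
    have : (X (ρ (ι v, 0)) + X (ρ (ι v, 1)) - 1 : MvPolynomial (Fin n) K).totalDegree ≤ 1 := by
      refine (totalDegree_sub _ _).trans (max_le ((totalDegree_add _ _).trans (max_le ?_ ?_)) ?_)
      · rw [totalDegree_X]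
      · rw [totalDegree_X]
      · rw [totalDegree_one]; norm_num
    omega
  · refine totalDegree_finsetSum_le (fun j _ => ?_)
    refine (totalDegree_sub _ _).trans (max_le ?_ ?_)
    · refine totalDegree_finsetSum_le (fun l _ => ?_)
      have h1 := degree_zz (K := K) ρ (ι (T (j, l)))
      have h2 : (zz K ρ (ι (T (j, l))) ^ 2).totalDegree ≤ 2 := (totalDegree_pow _ _).trans (by omega)
      refine (totalDegree_add _ _).trans (max_le ?_ (h2.trans (by norm_num)))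
      refine (totalDegree_mul _ _).trans ?_
      rw [totalDegree_C, zero_add]
      refine (totalDegree_pow _ _).trans ?_
      have h3 : (zz K ρ (ι (T (j, l))) ^ 2 - 1).totalDegree ≤ 2 := by
        refine (totalDegree_sub _ _).trans (max_le h2 ?_)
        rw [totalDegree_one]; norm_num
      omega
    · rw [totalDegree_one]; norm_num
  · refine totalDegree_finsetSum_le (fun j _ => ?_)
    refine (totalDegree_mul _ _).trans ?_
    rw [totalDegree_C, zero_add]
    unfold pr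
    refine (totalDegree_finsetProd _ _).trans ?_
    refine (Finset.sum_le_sum (fun l _ => degree_zz (K := K) ρ (ι (T (j, l))))).trans ?_
    simp

/-- the key identity -/
lemma row_identity (a b c s : K) (hs : s * s = 1) :
    (2 * (a ^ 2 - 1) ^ 2 + a ^ 2) + (2 * (b ^ 2 - 1) ^ 2 + b ^ 2) + (2 * (c ^ 2 - 1) ^ 2 + c ^ 2) - 1 -
      2 * s * (a * b * c) =
    (5 / 3) * ((a ^ 2 - 1) ^ 2 + (b ^ 2 - 1) ^ 2 + (c ^ 2 - 1) ^ 2) +
      (1 / 6) * ((a ^ 2 - b ^ 2) ^ 2 + (b ^ 2 - c ^ 2) ^ 2 + (c ^ 2 - a ^ 2) ^ 2) +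
      (1 / 3) * ((a * b - s * c) ^ 2 + (b * c - s * a) ^ 2 + (c * a - s * b) ^ 2) := by
  have h1 : (a * b - s * c) ^ 2 = a ^ 2 * b ^ 2 - 2 * s * (a * b * c) + (s * s) * c ^ 2 := by ring
  have h2 : (b * c - s * a) ^ 2 = b ^ 2 * c ^ 2 - 2 * s * (a * b * c) + (s * s) * a ^ 2 := by ring
  have h3 : (c * a - s * b) ^ 2 = c ^ 2 * a ^ 2 - 2 * s * (a * b * c) + (s * s) * b ^ 2 := by ring
  rw [h1, h2, h3, hs]
  ring

lemma row_nonneg (a b c s : K) (hs : s * s = 1) :
    0 ≤ (2 * (a ^ 2 - 1) ^ 2 + a ^ 2) + (2 * (b ^ 2 - 1) ^ 2 + b ^ 2) + (2 * (c ^ 2 - 1) ^ 2 + c ^ 2)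
      - 1 - 2 * s * (a * b * c) := by
  rw [row_identity a b c s hs]
  positivity

lemma row_zero (a b c s : K) (hs : s * s = 1)
    (h : (2 * (a ^ 2 - 1) ^ 2 + a ^ 2) + (2 * (b ^ 2 - 1) ^ 2 + b ^ 2) + (2 * (c ^ 2 - 1) ^ 2 + c ^ 2)
      - 1 - 2 * s * (a * b * c) = 0) : a ^ 2 = 1 ∧ b ^ 2 = 1 ∧ c ^ 2 = 1 ∧ a * b * c = s := by
  rw [row_identity a b c s hs] at h
  have e1 := sq_nonneg (a ^ 2 - 1)
  have e2 := sq_nonneg (b ^ 2 - 1)
  have e3 := sq_nonneg (c ^ 2 - 1)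
  have e4 := sq_nonneg (a ^ 2 - b ^ 2)
  have e5 := sq_nonneg (b ^ 2 - c ^ 2)
  have e6 := sq_nonneg (c ^ 2 - a ^ 2)
  have e7 := sq_nonneg (a * b - s * c)
  have e8 := sq_nonneg (b * c - s * a)
  have e9 := sq_nonneg (c * a - s * b)
  have h1 : (a ^ 2 - 1) ^ 2 = 0 := by linarith
  have h2 : (b ^ 2 - 1) ^ 2 = 0 := by linarith
  have h3 : (c ^ 2 - 1) ^ 2 = 0 := by linarith
  have h7 : (a * b - s * c) ^ 2 = 0 := by linarith
  have k1 : a ^ 2 = 1 := sub_eq_zero.mp (pow_eq_zero_iff two_ne_zero |>.mp h1)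
  have k2 : b ^ 2 = 1 := sub_eq_zero.mp (pow_eq_zero_iff two_ne_zero |>.mp h2)
  have k3 : c ^ 2 = 1 := sub_eq_zero.mp (pow_eq_zero_iff two_ne_zero |>.mp h3)
  have k7 : a * b = s * c := sub_eq_zero.mp (pow_eq_zero_iff two_ne_zero |>.mp h7)
  refine ⟨k1, k2, k3, ?_⟩
  rw [k7]
  linear_combination s * k3

/-- the value of the polynomial -/
lemma eval_quart (ρ : Fin p × ZMod 2 ↪ Fin n) (ι : Fin r → Fin p)
    (T : Fin (r + 1) × Fin 3 → Fin r) (t : Fin (r + 1) → ZMod 2) (z : Fin n → K) :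
    eval z (quart K ρ ι T t) = ∑ v : Fin r, (z (ρ (ι v, 0)) + z (ρ (ι v, 1)) - 1) ^ 2 +
      ∑ j : Fin (r + 1), ((2 * (eval z (zz K ρ (ι (T (j, 0)))) ^ 2 - 1) ^ 2 +
          eval z (zz K ρ (ι (T (j, 0)))) ^ 2) +
        (2 * (eval z (zz K ρ (ι (T (j, 1)))) ^ 2 - 1) ^ 2 + eval z (zz K ρ (ι (T (j, 1)))) ^ 2) +
        (2 * (eval z (zz K ρ (ι (T (j, 2)))) ^ 2 - 1) ^ 2 + eval z (zz K ρ (ι (T (j, 2)))) ^ 2) - 1 -
        2 * sgK K (t j) * (eval z (zz K ρ (ι (T (j, 0)))) * eval z (zz K ρ (ι (T (j, 1)))) *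
          eval z (zz K ρ (ι (T (j, 2)))))) := by
  unfold quart base pr
  rw [map_sub, map_add, map_sum, map_sum, map_sum, add_sub_assoc, ← Finset.sum_sub_distrib]
  congr 1
  · refine Finset.sum_congr rfl fun v _ => ?_
    rw [map_pow, map_sub, map_add, eval_X, eval_X, map_one]
  · refine Finset.sum_congr rfl fun j _ => ?_
    rw [map_sub, map_sum, Fin.sum_univ_three, map_mul, map_prod, Fin.prod_univ_three, eval_C]
    simp only [map_add, map_mul, map_pow, map_sub, map_one, eval_C]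

lemma quart_zero (ρ : Fin p × ZMod 2 ↪ Fin n) (ι : Fin r → Fin p)
    (T : Fin (r + 1) × Fin 3 → Fin r) : ∃ z : Fin n → K, eval z (quart K ρ ι T 0) = 0 := by
  classical
  let z : Fin n → K := fun v => if ∃ x, v = ρ (x, 0) then 1 else 0
  have h0 : ∀ x, z (ρ (x, 0)) = 1 := fun x => if_pos ⟨x, rfl⟩
  have h1 : ∀ x, z (ρ (x, 1)) = 0 := by
    intro x
    refine if_neg ?_
    rintro ⟨y, hy⟩
    have := congrArg Prod.snd (ρ.injective hy)
    exact one_ne_zero this
  have hzz : ∀ x, eval z (zz K ρ x) = 1 := by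
    intro x
    unfold zz
    rw [map_sub, eval_X, eval_X, h0, h1, sub_zero]
  refine ⟨z, ?_⟩
  rw [eval_quart]
  have e1 : ∀ v : Fin r, (z (ρ (ι v, 0)) + z (ρ (ι v, 1)) - 1) ^ 2 = 0 := by
    intro v
    rw [h0, h1]
    ring
  rw [Finset.sum_eq_zero (fun v _ => e1 v), zero_add]
  refine Finset.sum_eq_zero fun j _ => ?_
  rw [hzz, hzz, hzz]
  have : sgK K ((0 : Fin (r + 1) → ZMod 2) j) = 1 := if_pos rfl
  rw [this]
  ring

lemma of_quart (ρ : Fin p × ZMod 2 ↪ Fin n) (ι : Fin r → Fin p)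
    (T : Fin (r + 1) × Fin 3 → Fin r) (t : Fin (r + 1) → ZMod 2) (z : Fin n → K)
    (h : eval z (quart K ρ ι T t) = 0) : ∃ a, NS.A T a = t := by
  classical
  rw [eval_quart] at h
  have hs : ∀ j, sgK K (t j) * sgK K (t j) = 1 := fun j => sgK_sq _
  have h1 : 0 ≤ ∑ v : Fin r, (z (ρ (ι v, 0)) + z (ρ (ι v, 1)) - 1) ^ 2 :=
    Finset.sum_nonneg fun v _ => sq_nonneg _
  have h2 := Finset.sum_nonneg (fun j (_ : j ∈ (univ : Finset (Fin (r + 1)))) =>
    row_nonneg (eval z (zz K ρ (ι (T (j, 0))))) (eval z (zz K ρ (ι (T (j, 1)))))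
      (eval z (zz K ρ (ι (T (j, 2))))) (sgK K (t j)) (hs j))
  have h3 := (add_eq_zero_iff_of_nonneg h1 h2).mp h
  have h4 := (Finset.sum_eq_zero_iff_of_nonneg (fun j _ =>
    row_nonneg (eval z (zz K ρ (ι (T (j, 0))))) (eval z (zz K ρ (ι (T (j, 1)))))
      (eval z (zz K ρ (ι (T (j, 2))))) (sgK K (t j)) (hs j))).mp h3.2
  let b : Fin r → ZMod 2 := fun v => if eval z (zz K ρ (ι v)) = 1 then 0 else 1
  have hb : ∀ v, eval z (zz K ρ (ι v)) ^ 2 = 1 → eval z (zz K ρ (ι v)) = sgK K (b v) := by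
    intro v hv
    by_cases h0 : eval z (zz K ρ (ι v)) = 1
    · have : b v = 0 := if_pos h0
      rw [this, h0]
      exact (if_pos rfl).symm
    · have hb1 : b v = 1 := if_neg h0
      rw [hb1]
      have h5 : eval z (zz K ρ (ι v)) = -1 :=
        (mul_self_eq_one_iff.mp (by rw [← pow_two]; exact hv)).resolve_left h0
      rw [h5]
      exact (if_neg one_ne_zero).symm
  refine ⟨b, funext fun j => ?_⟩
  obtain ⟨k1, k2, k3, k4⟩ := row_zero _ _ _ _ (hs j) (h4 j (Finset.mem_univ j))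
  rw [hb _ k1, hb _ k2, hb _ k3] at k4
  apply sgK_inj (K := K)
  rw [← k4, NS.A_apply, sgK_sum, Fin.prod_univ_three]

/-- **Lower bound** for one equation of degree four over an ordered field. -/
theorem lower4 (K : Type) [Field K] [LinearOrder K] [IsStrictOrderedRing K] (n M r p : ℕ)
    (hM : 1 ≤ M) (ρ : Fin p × ZMod 2 ↪ Fin n)
    (D : AddSubgroup (Fin p → ZMod 2)) (hD : Nat.card D = 2 ^ r) (Gt : Type) [Fintype Gt]
    (N : PS.Net (Fin M × (Fin n →₀ ℕ)) K Gt) (hdec : Decides 4 N)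
    (hsym : ∀ a ∈ D, SymUnder N (swapVars ρ a)) : 2 ^ (r / 2000) ≤ Fintype.card Gt := by
  by_contra hlt
  push Not at hlt
  rcases Nat.lt_or_ge r 2000 with hr | hr
  · rw [Nat.div_eq_of_lt hr, pow_zero] at hlt
    have : Nonempty Gt := ⟨N.out⟩
    have := Fintype.card_pos (α := Gt)
    omega
  obtain ⟨ι, _, E, hE⟩ := NS.exists_ext D r hD
  let i0 : Fin M := ⟨0, by omega⟩
  obtain ⟨T, t, ht, hev⟩ := exists_unsolvable (r / 2000) (by omega) (by omega)
    (fun h => ren M (swapVars ρ (E.ext h))) (fam4 (K := K) ρ ι E i0) (fun _ => rfl) (fun _ => rfl) N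
    (fun a => hsym _ (hE a)) hlt
  have hdeg : ∀ t i, (sys4 K ρ ι i0 T t i).totalDegree ≤ 4 := by
    intro t i
    unfold sys4
    split_ifs
    · exact degree_quart ρ ι T t
    · rw [totalDegree_zero]; norm_num
  have h1 := (hdec (sys4 K ρ ι i0 T 0) (hdeg 0)).1 (by
    obtain ⟨z, hz⟩ := quart_zero (K := K) ρ ι T
    refine ⟨z, fun i => ?_⟩
    unfold sys4
    split_ifs
    · exact hz
    · exact map_zero _)
  have h2 := (hdec (sys4 K ρ ι i0 T t) (hdeg t)).2 (fun hs => by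
    obtain ⟨z, hz⟩ := hs
    have h3 := hz i0
    unfold sys4 at h3
    rw [if_pos rfl] at h3
    obtain ⟨a, ha⟩ := of_quart ρ ι T t z h3
    exact ht a ha)
  have h3 : N.eval (coeffs (sys4 K ρ ι i0 T t)) = N.eval (coeffs (sys4 K ρ ι i0 T 0)) := hev
  rw [h1, h2] at h3
  exact zero_ne_one h3

end H522R3.HN
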