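import Pool.Agent.H522R3.HN.Rand
import Pool.Agent.H522R3.HN.Defs

set_option autoImplicit false
set_option linter.unusedSectionVars false

/-!
Systems of linear equations over `ZMod 2` as systems of cubic equations over a field.
-/

namespace H522R3.HN

open Finset MvPolynomial Pool.Agent.H30R2

variable {K : Type} [Field K] {n M r p : ℕ}

/-- index set of the equations -/
abbrev Eqn (r : ℕ) : Type := Fin r ⊕ Fin r ⊕ Fin (r + 1)

/-- the equations -/
noncomputable def Q (K : Type) [Field K] (ρ : Fin p × ZMod 2 ↪ Fin n) (ι : Fin r → Fin p)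
    (T : Fin (r + 1) × Fin 3 → Fin r) (t : Fin (r + 1) → ZMod 2) : Eqn r → MvPolynomial (Fin n) K
  | Sum.inl v => X (ρ (ι v, 0)) + X (ρ (ι v, 1)) - 1
  | Sum.inr (Sum.inl v) => X (ρ (ι v, 0)) * X (ρ (ι v, 1))
  | Sum.inr (Sum.inr j) => ∑ a : Fin 3 → ZMod 2, if ∑ l, a l = t j + 1 then
      ∏ l, X (ρ (ι (T (j, l)), a l)) else 0

/-- the system -/
noncomputable def sys (K : Type) [Field K] (ρ : Fin p × ZMod 2 ↪ Fin n) (ι : Fin r → Fin p)
    (e : Eqn r ↪ Fin M) (T : Fin (r + 1) × Fin 3 → Fin r) (t : Fin (r + 1) → ZMod 2) (i : Fin M) :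
    MvPolynomial (Fin n) K :=
  Function.extend e (Q K ρ ι T t) 0 i

lemma sys_apply (ρ : Fin p × ZMod 2 ↪ Fin n) (ι : Fin r → Fin p)
    (e : Eqn r ↪ Fin M) (T : Fin (r + 1) × Fin 3 → Fin r) (t : Fin (r + 1) → ZMod 2) (j : Eqn r) :
    sys K ρ ι e T t (e j) = Q K ρ ι T t j := e.injective.extend_apply _ _ _

lemma sys_out (ρ : Fin p × ZMod 2 ↪ Fin n) (ι : Fin r → Fin p)
    (e : Eqn r ↪ Fin M) (T : Fin (r + 1) × Fin 3 → Fin r) (t : Fin (r + 1) → ZMod 2) (i : Fin M)
    (hi : ¬ ∃ j, e j = i) : sys K ρ ι e T t i = 0 := Function.extend_apply' _ _ _ hi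

lemma Q_row (ρ : Fin p × ZMod 2 ↪ Fin n) (ι : Fin r → Fin p)
    (T : Fin (r + 1) × Fin 3 → Fin r) (j : Fin (r + 1)) (t1 t2 : Fin (r + 1) → ZMod 2)
    (h12 : t1 j = t2 j) : Q K ρ ι T t1 (Sum.inr (Sum.inr j)) = Q K ρ ι T t2 (Sum.inr (Sum.inr j)) := by
  show (∑ a : Fin 3 → ZMod 2, if ∑ l, a l = t1 j + 1 then
      ∏ l, (X (ρ (ι (T (j, l)), a l)) : MvPolynomial (Fin n) K) else 0) =
      ∑ a : Fin 3 → ZMod 2, if ∑ l, a l = t2 j + 1 then
      ∏ l, (X (ρ (ι (T (j, l)), a l)) : MvPolynomial (Fin n) K) else 0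
  rw [h12]

lemma degree_sys (ρ : Fin p × ZMod 2 ↪ Fin n) (ι : Fin r → Fin p)
    (e : Eqn r ↪ Fin M) (T : Fin (r + 1) × Fin 3 → Fin r) (t : Fin (r + 1) → ZMod 2) (i : Fin M) :
    (sys K ρ ι e T t i).totalDegree ≤ 3 := by
  by_cases hi : ∃ j, e j = i
  · obtain ⟨j, rfl⟩ := hi
    rw [sys_apply]
    rcases j with v | v | j
    · show (X (ρ (ι v, 0)) + X (ρ (ι v, 1)) - 1 : MvPolynomial (Fin n) K).totalDegree ≤ 3
      refine (totalDegree_sub _ _).trans (max_le ((totalDegree_add _ _).trans (max_le ?_ ?_)) ?_)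
      · rw [totalDegree_X]; norm_num
      · rw [totalDegree_X]; norm_num
      · rw [totalDegree_one]; norm_num
    · show (X (ρ (ι v, 0)) * X (ρ (ι v, 1)) : MvPolynomial (Fin n) K).totalDegree ≤ 3
      refine (totalDegree_mul _ _).trans ?_
      rw [totalDegree_X, totalDegree_X]; norm_num
    · show (∑ a : Fin 3 → ZMod 2, if ∑ l, a l = t j + 1 then
        ∏ l, (X (ρ (ι (T (j, l)), a l)) : MvPolynomial (Fin n) K) else 0).totalDegree ≤ 3
      refine totalDegree_finsetSum_le (fun a _ => ?_)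
      split_ifs
      · refine (totalDegree_finset_prod _ _).trans ?_
        simp [totalDegree_X]
      · rw [totalDegree_zero]; norm_num
  · rw [sys_out _ _ _ _ _ _ hi, totalDegree_zero]; norm_num

/-- renaming the variables changes the right-hand sides -/
lemma rename_sys (ρ : Fin p × ZMod 2 ↪ Fin n) (ι : Fin r → Fin p) (E : NS.Ext ι)
    (e : Eqn r ↪ Fin M) (T : Fin (r + 1) × Fin 3 → Fin r) (t : Fin (r + 1) → ZMod 2)
    (h : Fin r → ZMod 2) (i : Fin M) :
    rename (swapVars ρ (E.ext h)) (sys K ρ ι e T t i) = sys K ρ ι e T (t + NS.A T h) i := by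
  by_cases hi : ∃ j, e j = i
  · obtain ⟨j, rfl⟩ := hi
    rw [sys_apply, sys_apply]
    have hz : ∀ c : ZMod 2, c = 0 ∨ c = 1 := by decide
    have hc2 : (1 : ZMod 2) + 1 = 0 := by decide
    rcases j with v | v | j
    · show rename _ (X (ρ (ι v, 0)) + X (ρ (ι v, 1)) - 1 : MvPolynomial (Fin n) K) =
        X (ρ (ι v, 0)) + X (ρ (ι v, 1)) - 1
      rw [map_sub, map_add, rename_X, rename_X, map_one, swapVars_apply, swapVars_apply, E.apply]
      rcases hz (h v) with h0 | h0
      · rw [h0, add_zero, add_zero]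
      · rw [h0, zero_add, hc2, add_comm (X (ρ (ι v, 1)))]
    · show rename _ (X (ρ (ι v, 0)) * X (ρ (ι v, 1)) : MvPolynomial (Fin n) K) =
        X (ρ (ι v, 0)) * X (ρ (ι v, 1))
      rw [map_mul, rename_X, rename_X, swapVars_apply, swapVars_apply, E.apply]
      rcases hz (h v) with h0 | h0
      · rw [h0, add_zero, add_zero]
      · rw [h0, zero_add, hc2, mul_comm (X (ρ (ι v, 1)))]
    · show rename _ (∑ a : Fin 3 → ZMod 2, if ∑ l, a l = t j + 1 then
        ∏ l, (X (ρ (ι (T (j, l)), a l)) : MvPolynomial (Fin n) K) else 0) =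
        ∑ a : Fin 3 → ZMod 2, if ∑ l, a l = (t + NS.A T h) j + 1 then
        ∏ l, (X (ρ (ι (T (j, l)), a l)) : MvPolynomial (Fin n) K) else 0
      rw [map_sum]
      conv_rhs => rw [← Equiv.sum_comp (Equiv.addRight (fun l => h (T (j, l))))]
      refine Finset.sum_congr rfl fun a _ => ?_
      have hcond : (∑ l, (Equiv.addRight (fun l => h (T (j, l)))) a l = (t + NS.A T h) j + 1) ↔
          (∑ l, a l = t j + 1) := by
        have h1 : ∑ l, (Equiv.addRight (fun l => h (T (j, l)))) a l = ∑ l, a l + NS.A T h j := by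
          rw [NS.A_apply, ← Finset.sum_add_distrib]
          rfl
        rw [h1, Pi.add_apply]
        constructor
        · intro h2
          have h3 : ∑ l, a l + NS.A T h j = (t j + 1) + NS.A T h j := by rw [h2]; ring
          exact add_right_cancel h3
        · intro h2
          rw [h2]; ring
      by_cases hc : ∑ l, a l = t j + 1
      · rw [if_pos hc, if_pos (hcond.mpr hc), map_prod]
        refine Finset.prod_congr rfl fun l _ => ?_
        rw [rename_X, swapVars_apply, E.apply]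
        rfl
      · rw [if_neg hc, if_neg (fun h' => hc (hcond.mp h')), map_zero]
  · rw [sys_out _ _ _ _ _ _ hi, sys_out _ _ _ _ _ _ hi, map_zero]

/-- the family of inputs -/
noncomputable def fam (ρ : Fin p × ZMod 2 ↪ Fin n) (ι : Fin r → Fin p) (E : NS.Ext ι)
    (e : Eqn r ↪ Fin M) (T : Fin (r + 1) × Fin 3 → Fin r) :
    PS.Setup (Fin M × (Fin n →₀ ℕ)) K (Fin (r + 1)) (Fin r → ZMod 2) where
  B := NS.A T
  perm h := ren M (swapVars ρ (E.ext h))
  perm_zero := by rw [E.zero, swapVars_zero, ren_one]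
  perm_add h h' := by rw [E.add, swapVars_add, ren_mul]
  x t := coeffs (sys K ρ ι e T t)
  equi t h i := by
    show (sys K ρ ι e T (t + NS.A T h) i.1).coeff (i.2.mapDomain (swapVars ρ (E.ext h))) =
      (sys K ρ ι e T t i.1).coeff i.2
    rw [← rename_sys, coeff_rename_mapDomain _ (Equiv.injective _)]
  loc i := {s | ∃ t e', (∀ s', s' ≠ s → e' s' = 0) ∧
    (sys K ρ ι e T (t + e') i.1).coeff i.2 ≠ (sys K ρ ι e T t i.1).coeff i.2}
  loc_x i t e' h := by
    show (sys K ρ ι e T (t + e') i.1).coeff i.2 = (sys K ρ ι e T t i.1).coeff i.2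
    by_cases hi : ∃ j, e j = i.1
    · obtain ⟨j, hj⟩ := hi
      rw [← hj, sys_apply, sys_apply]
      rcases j with v | v | j
      · rfl
      · rfl
      · have key := fun t1 t2 => Q_row (K := K) ρ ι T j t1 t2
        by_cases hj0 : e' j = 0
        · rw [key (t + e') t (by rw [Pi.add_apply, hj0, add_zero])]
        · have h1 : ¬ ∃ t e'', (∀ s', s' ≠ j → e'' s' = 0) ∧
              (sys K ρ ι e T (t + e'') i.1).coeff i.2 ≠ (sys K ρ ι e T t i.1).coeff i.2 := by
            intro hex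
            exact hj0 (h j hex)
          push Not at h1
          have h2 := h1 t (Pi.single j (e' j)) (fun s' hs' => Pi.single_eq_of_ne hs' _)
          rw [← hj, sys_apply, sys_apply] at h2
          rw [← h2]
          rw [key (t + e') (t + Pi.single j (e' j)) (by
            rw [Pi.add_apply, Pi.add_apply, Pi.single_eq_same])]
    · rw [sys_out _ _ _ _ _ _ hi, sys_out _ _ _ _ _ _ hi]
  loc_perm i h hfix s hs := by
    obtain ⟨t, e', he', hne⟩ := hs
    by_contra hB
    have hi : ∃ j, e j = i.1 := by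
      by_contra hi
      rw [sys_out _ _ _ _ _ _ hi, sys_out _ _ _ _ _ _ hi] at hne
      exact hne rfl
    obtain ⟨j, hj⟩ := hi
    rw [← hj, sys_apply, sys_apply] at hne
    rcases j with v | v | j
    · exact hne rfl
    · exact hne rfl
    · have key := fun t1 t2 => Q_row (K := K) ρ ι T j t1 t2
      have hjs : j = s := by
        by_contra hjs
        rw [key (t + e') t (by rw [Pi.add_apply, he' j hjs, add_zero])] at hne
        exact hne rfl
      subst hjs
      have hm : i.2.mapDomain (swapVars ρ (E.ext h)) = i.2 := congrArg Prod.snd hfix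
      have h1 : (sys K ρ ι e T (t + NS.A T h) i.1).coeff i.2 = (sys K ρ ι e T t i.1).coeff i.2 := by
        conv_lhs => rw [← hm]
        rw [← rename_sys, coeff_rename_mapDomain _ (Equiv.injective _)]
      rw [← hj, sys_apply, sys_apply] at h1
      have hA : NS.A T h j = 1 := by
        have : ∀ c : ZMod 2, c ≠ 0 → c = 1 := by decide
        exact this _ hB
      have he1 : e' j = 1 := by
        have h0 : e' j ≠ 0 := by
          intro h0
          rw [key (t + e') t (by rw [Pi.add_apply, h0, add_zero])] at hne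
          exact hne rfl
        have : ∀ c : ZMod 2, c ≠ 0 → c = 1 := by decide
        exact this _ h0
      apply hne
      rw [← h1, key (t + e') (t + NS.A T h) (by rw [Pi.add_apply, Pi.add_apply, hA, he1])]

/-- value of the cubic equations at one-hot points -/
lemma eval_row (ρ : Fin p × ZMod 2 ↪ Fin n) (ι : Fin r → Fin p)
    (T : Fin (r + 1) × Fin 3 → Fin r) (t : Fin (r + 1) → ZMod 2) (z : Fin n → K) (b : Fin r → ZMod 2)
    (hz : ∀ v k, z (ρ (ι v, k)) = if k = b v then 1 else 0) (j : Fin (r + 1)) :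
    eval z (Q K ρ ι T t (Sum.inr (Sum.inr j))) = if NS.A T b j = t j + 1 then 1 else 0 := by
  show eval z (∑ a : Fin 3 → ZMod 2, if ∑ l, a l = t j + 1 then
        ∏ l, (X (ρ (ι (T (j, l)), a l)) : MvPolynomial (Fin n) K) else 0) = _
  rw [map_sum, Finset.sum_eq_single (fun l => b (T (j, l)))]
  · rw [NS.A_apply]
    split_ifs with h
    · rw [map_prod]
      refine Finset.prod_eq_one fun l _ => ?_
      rw [eval_X, hz, if_pos rfl]
    · rw [map_zero]
  · intro a _ ha
    split_ifs with h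
    · rw [map_prod]
      obtain ⟨l, hl⟩ := Function.ne_iff.mp ha
      refine Finset.prod_eq_zero (Finset.mem_univ l) ?_
      rw [eval_X, hz, if_neg hl]
    · rw [map_zero]
  · intro h
    exact absurd (Finset.mem_univ _) h

/-- the system with right-hand side `0` has a solution -/
lemma solvable_zero (ρ : Fin p × ZMod 2 ↪ Fin n) (ι : Fin r → Fin p)
    (e : Eqn r ↪ Fin M) (T : Fin (r + 1) × Fin 3 → Fin r) :
    ∃ z : Fin n → K, ∀ i, eval z (sys K ρ ι e T 0 i) = 0 := by
  classical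
  let z : Fin n → K := fun v => if ∃ x, v = ρ (x, 0) then 1 else 0
  have hz : ∀ v k, z (ρ (ι v, k)) = if k = (0 : Fin r → ZMod 2) v then 1 else 0 := by
    intro v k
    show (if ∃ x, ρ (ι v, k) = ρ (x, 0) then (1 : K) else 0) = if k = (0 : ZMod 2) then 1 else 0
    by_cases hk : k = 0
    · subst hk
      rw [if_pos ⟨ι v, rfl⟩, if_pos rfl]
    · rw [if_neg hk, if_neg]
      rintro ⟨x, hx⟩
      exact hk (congrArg Prod.snd (ρ.injective hx))
  refine ⟨z, fun i => ?_⟩
  by_cases hi : ∃ j, e j = i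
  · obtain ⟨j, rfl⟩ := hi
    rw [sys_apply]
    rcases j with v | v | j
    · show eval z (X (ρ (ι v, 0)) + X (ρ (ι v, 1)) - 1 : MvPolynomial (Fin n) K) = 0
      rw [map_sub, map_add, eval_X, eval_X, map_one, hz, hz, Pi.zero_apply, if_pos rfl,
        if_neg (by decide)]
      ring
    · show eval z (X (ρ (ι v, 0)) * X (ρ (ι v, 1)) : MvPolynomial (Fin n) K) = 0
      rw [map_mul, eval_X, eval_X, hz, hz, Pi.zero_apply,
        if_neg (show ¬ ((1 : ZMod 2) = 0) by decide), mul_zero]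
    · rw [eval_row ρ ι T 0 z 0 hz, map_zero, if_neg]
      show ¬ ((0 : ZMod 2) = 0 + 1)
      decide
  · rw [sys_out _ _ _ _ _ _ hi, map_zero]

/-- the system with right-hand side `t` has a solution only if the linear system has -/
lemma of_solvable (ρ : Fin p × ZMod 2 ↪ Fin n) (ι : Fin r → Fin p)
    (e : Eqn r ↪ Fin M) (T : Fin (r + 1) × Fin 3 → Fin r) (t : Fin (r + 1) → ZMod 2)
    (h : ∃ z : Fin n → K, ∀ i, eval z (sys K ρ ι e T t i) = 0) : ∃ a, NS.A T a = t := by
  classical
  obtain ⟨z, hz⟩ := h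
  have h1 : ∀ v, z (ρ (ι v, 0)) + z (ρ (ι v, 1)) = 1 := by
    intro v
    have h := hz (e (Sum.inl v))
    rw [sys_apply] at h
    have h' : eval z (X (ρ (ι v, 0)) + X (ρ (ι v, 1)) - 1 : MvPolynomial (Fin n) K) = 0 := h
    rw [map_sub, map_add, eval_X, eval_X, map_one] at h'
    exact sub_eq_zero.mp h'
  have h2 : ∀ v, z (ρ (ι v, 0)) * z (ρ (ι v, 1)) = 0 := by
    intro v
    have h := hz (e (Sum.inr (Sum.inl v)))
    rw [sys_apply] at h
    have h' : eval z (X (ρ (ι v, 0)) * X (ρ (ι v, 1)) : MvPolynomial (Fin n) K) = 0 := h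
    rwa [map_mul, eval_X, eval_X] at h'
  let b : Fin r → ZMod 2 := fun v => if z (ρ (ι v, 0)) = 0 then 1 else 0
  have hzm : ∀ c : ZMod 2, c = 0 ∨ c = 1 := by decide
  have hb : ∀ v k, z (ρ (ι v, k)) = if k = b v then 1 else 0 := by
    intro v k
    by_cases h0 : z (ρ (ι v, 0)) = 0
    · have hbv : b v = 1 := if_pos h0
      have h3 : z (ρ (ι v, 1)) = 1 := by
        have := h1 v
        rwa [h0, zero_add] at this
      rw [hbv]
      rcases hzm k with rfl | rfl
      · rw [if_neg (by decide)]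
        exact h0
      · rw [if_pos rfl]
        exact h3
    · have hbv : b v = 0 := if_neg h0
      have h3 : z (ρ (ι v, 1)) = 0 := (mul_eq_zero.mp (h2 v)).resolve_left h0
      have h4 : z (ρ (ι v, 0)) = 1 := by
        have := h1 v
        rwa [h3, add_zero] at this
      rw [hbv]
      rcases hzm k with rfl | rfl
      · rw [if_pos rfl]
        exact h4
      · rw [if_neg (by decide)]
        exact h3
  refine ⟨b, funext fun j => ?_⟩
  have h := hz (e (Sum.inr (Sum.inr j)))
  rw [sys_apply, eval_row ρ ι T t z b hb] at h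
  by_contra hne
  have h5 : NS.A T b j = t j + 1 := by
    have : ∀ c d : ZMod 2, c ≠ d → c = d + 1 := by decide
    exact this _ _ hne
  rw [if_pos h5] at h
  exact one_ne_zero h

/-- **Lower bound.** -/
theorem lower (K : Type) [Field K] (n M r p : ℕ) (hM : 3 * r + 1 ≤ M) (ρ : Fin p × ZMod 2 ↪ Fin n)
    (D : AddSubgroup (Fin p → ZMod 2)) (hD : Nat.card D = 2 ^ r) (Gt : Type) [Fintype Gt]
    (N : PS.Net (Fin M × (Fin n →₀ ℕ)) K Gt) (hdec : Decides 3 N)
    (hsym : ∀ a ∈ D, SymUnder N (swapVars ρ a)) : 2 ^ (r / 2000) ≤ Fintype.card Gt := by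
  by_contra hlt
  push Not at hlt
  rcases Nat.lt_or_ge r 2000 with hr | hr
  · rw [Nat.div_eq_of_lt hr, pow_zero] at hlt
    have : Nonempty Gt := ⟨N.out⟩
    have := Fintype.card_pos (α := Gt)
    omega
  obtain ⟨ι, _, E, hE⟩ := NS.exists_ext D r hD
  have hcard : Fintype.card (Eqn r) ≤ Fintype.card (Fin M) := by
    simp only [Eqn, Fintype.card_sum, Fintype.card_fin]
    omega
  obtain ⟨e⟩ := Function.Embedding.nonempty_of_card_le hcard
  obtain ⟨T, t, ht, hev⟩ := exists_unsolvable (r / 2000) (by omega) (by omega)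
    (fun h => ren M (swapVars ρ (E.ext h))) (fam (K := K) ρ ι E e) (fun _ => rfl) (fun _ => rfl) N
    (fun a => hsym _ (hE a)) hlt
  have h1 := (hdec (sys K ρ ι e T 0) (degree_sys ρ ι e T 0)).1 (solvable_zero ρ ι e T)
  have h2 := (hdec (sys K ρ ι e T t) (degree_sys ρ ι e T t)).2 (fun hs => by
    obtain ⟨a, ha⟩ := of_solvable ρ ι e T t hs
    exact ht a ha)
  have h3 : N.eval (coeffs (sys K ρ ι e T t)) = N.eval (coeffs (sys K ρ ι e T 0)) := hev
  rw [h1, h2] at h3
  exact zero_ne_one h3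

end H522R3.HN
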